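import Mathlib
import Pool.Agent.Helper993.DeltaDef

/-!
# Project LT (helper496), parts P3S and P3T: lower bound of the torsion, Smith normal form
-/

set_option autoImplicit false

open scoped Matrix

namespace Pool.Agent.N426.LT

open Pool.Agent.Helper993.Delta

/-- If torsion classes `z i` are detected by functionals modulo `p` then the torsion has at least
`p ^ |I|` elements. -/
theorem tors_ge {M : Type} [AddCommGroup M] [Module.Finite ℤ M] (Z B : Submodule ℤ M) (p : ℕ)
    [Fact p.Prime] {I : Type} [Fintype I] [DecidableEq I] (z : I → M) (hz : ∀ i, z i ∈ Z)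
    (ht : ∀ i, ∃ m : ℤ, m ≠ 0 ∧ m • z i ∈ B) (φ : I → M →+ ZMod p)
    (hφ : ∀ i, ∀ b ∈ B, φ i b = 0) (hd : ∀ i j, φ i (z j) = if i = j then 1 else 0) :
    p ^ Fintype.card I ≤ torsionCard Z B := by
  classical
  unfold torsionCard
  have hker : B.submoduleOf Z ≤
      LinearMap.ker (LinearMap.pi fun i => (φ i).toIntLinearMap ∘ₗ Z.subtype) := by
    intro b hb
    rw [LinearMap.mem_ker]
    funext i
    exact hφ i _ hb
  obtain ⟨Φ, hΦ⟩ : ∃ Φ : (Z ⧸ B.submoduleOf Z) →ₗ[ℤ] (I → ZMod p),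
      ∀ x : Z, ∀ i, Φ (Submodule.Quotient.mk x) i = φ i x :=
    ⟨(B.submoduleOf Z).liftQ _ hker, fun x i => rfl⟩
  have hT : ∀ i, (Submodule.Quotient.mk ⟨z i, hz i⟩ : Z ⧸ B.submoduleOf Z) ∈
      Submodule.torsion ℤ (Z ⧸ B.submoduleOf Z) := by
    intro i
    obtain ⟨m, hm, hmB⟩ := ht i
    rw [Submodule.mem_torsion_iff]
    refine ⟨⟨m, mem_nonZeroDivisors_of_ne_zero hm⟩, ?_⟩
    show m • (Submodule.Quotient.mk ⟨z i, hz i⟩ : Z ⧸ B.submoduleOf Z) = 0
    rw [← Submodule.Quotient.mk_smul, Submodule.Quotient.mk_eq_zero]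
    exact hmB
  have hfin : Finite (Submodule.torsion ℤ (Z ⧸ B.submoduleOf Z)) :=
    Module.finite_of_fg_torsion _ Submodule.torsion_isTorsion
  have hsurj : Function.Surjective
      (fun x : Submodule.torsion ℤ (Z ⧸ B.submoduleOf Z) => Φ x.1) := by
    intro c
    refine ⟨⟨∑ i, ((c i).val : ℤ) • Submodule.Quotient.mk ⟨z i, hz i⟩,
      Submodule.sum_mem _ fun i _ => Submodule.smul_mem _ _ (hT i)⟩, ?_⟩
    show Φ (∑ i, ((c i).val : ℤ) • Submodule.Quotient.mk ⟨z i, hz i⟩) = c
    funext j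
    rw [map_sum, Finset.sum_apply, Finset.sum_eq_single j]
    · rw [map_smul, Pi.smul_apply, hΦ, hd, if_pos rfl]
      simp
    · intro i _ hij
      rw [map_smul, Pi.smul_apply, hΦ, hd, if_neg (Ne.symm hij), smul_zero]
    · intro h
      exact absurd (Finset.mem_univ j) h
  have h1 := Nat.card_le_card_of_surjective _ hsurj
  rwa [Nat.card_fun, Nat.card_zmod, Nat.card_eq_fintype_card] at h1

theorem sum_bN {M : Type} [AddCommGroup M] {B : Submodule ℤ M} {r : ℕ}
    (b : Module.Basis (Fin r) ℤ B) (w : M) (hw : w ∈ B) :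
    w = ∑ j, b.repr ⟨w, hw⟩ j • (b j : M) := by
  have h := congrArg B.subtype (b.sum_repr ⟨w, hw⟩)
  rw [map_sum] at h
  simp only [map_smul] at h
  exact h.symm

/-- The Smith normal form. -/
theorem snf_data {S T : Type} [Fintype S] [Fintype T] (Mx : Matrix S T ℤ) (p : ℕ)
    [Fact p.Prime] : ∃ (I : Type) (_ : Fintype I) (_ : DecidableEq I),
    (Mx.map (Int.cast : ℤ → ℝ)).rank - (Mx.map (Int.cast : ℤ → ZMod p)).rank ≤ Fintype.card I ∧
    ∃ (a : I → ℤ) (y : I → T → ℤ) (x : I → S → ℤ) (ψ : I → (T → ℤ) →ₗ[ℤ] ℤ),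
      (∀ i, a i ≠ 0 ∧ (p : ℤ) ∣ a i ∧ x i ᵥ* Mx = a i • y i ∧ ∀ v, a i ∣ ψ i (v ᵥ* Mx)) ∧
      ∀ i j, ψ i (y j) = if i = j then 1 else 0 := by
  classical
  obtain ⟨B, hB⟩ : ∃ B, B = Submodule.span ℤ (Set.range Mx.row) := ⟨_, rfl⟩
  obtain ⟨r, nf⟩ := B.smithNormalForm (Pi.basisFun ℤ T)
  have hbB : ∀ i, (nf.bN i : T → ℤ) = nf.a i • nf.bM (nf.f i) := nf.snf
  have hmem : ∀ i, nf.a i • nf.bM (nf.f i) ∈ B := fun i => by
    rw [← hbB]
    exact (nf.bN i).2
  have hvB : ∀ v : S → ℤ, v ᵥ* Mx ∈ B := by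
    intro v
    rw [hB]
    have h1 : v ᵥ* Mx = ∑ s, v s • Mx.row s := by
      funext t
      simp [Matrix.vecMul, dotProduct, Matrix.row]
    rw [h1]
    exact Submodule.sum_mem _ fun s _ => Submodule.smul_mem _ _ (Submodule.subset_span ⟨s, rfl⟩)
  have hBv : ∀ w ∈ B, ∃ v : S → ℤ, v ᵥ* Mx = w := by
    intro w hw
    rw [hB] at hw
    induction hw using Submodule.span_induction with
    | mem w hw =>
      obtain ⟨s, rfl⟩ := hw
      refine ⟨Pi.single s 1, ?_⟩
      funext t
      simp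
    | zero => exact ⟨0, Matrix.zero_vecMul _⟩
    | add u w _ _ hu hw =>
      obtain ⟨u', rfl⟩ := hu
      obtain ⟨w', rfl⟩ := hw
      exact ⟨u' + w', Matrix.add_vecMul _ _ _⟩
    | smul c u _ hu =>
      obtain ⟨u', rfl⟩ := hu
      exact ⟨c • u', Matrix.smul_vecMul _ _ _⟩
  have hane : ∀ i, nf.a i ≠ 0 := by
    intro i h0
    have h1 := hbB i
    rw [h0, zero_smul] at h1
    exact nf.bN.ne_zero i (Subtype.ext h1)
  have hdiv : ∀ w ∈ B, ∀ i, nf.a i ∣ nf.bM.coord (nf.f i) w := by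
    intro w hw i
    have h1 : w = ∑ j, nf.bN.repr ⟨w, hw⟩ j • (nf.bN j : T → ℤ) := sum_bN nf.bN w hw
    rw [h1, map_sum]
    refine Finset.dvd_sum fun j _ => ?_
    rw [map_smul, hbB, map_smul, smul_eq_mul, smul_eq_mul, Module.Basis.coord_apply,
      Module.Basis.repr_self, Finsupp.single_apply]
    by_cases hij : j = i
    · rw [if_pos (by rw [hij]), hij, mul_one]
      exact dvd_mul_left _ _
    · rw [if_neg (fun h => hij (nf.f.injective h)), mul_zero, mul_zero]
      exact dvd_zero _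
  -- the rank over the real numbers
  have hR : (Mx.map (Int.cast : ℤ → ℝ)).rank ≤ r := by
    rw [Matrix.rank_eq_finrank_span_row]
    have h1 : Submodule.span ℝ (Set.range (Mx.map (Int.cast : ℤ → ℝ)).row) ≤
        Submodule.span ℝ (Set.range fun i : Fin r => fun t => ((nf.bN i : T → ℤ) t : ℝ)) := by
      rw [Submodule.span_le]
      rintro _ ⟨s, rfl⟩
      have h2 : Mx.row s ∈ B := by
        rw [hB]
        exact Submodule.subset_span ⟨s, rfl⟩
      have h3 : Mx.row s = ∑ j, nf.bN.repr ⟨_, h2⟩ j • (nf.bN j : T → ℤ) :=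
        sum_bN nf.bN _ h2
      have h5 : (Mx.map (Int.cast : ℤ → ℝ)).row s =
          ∑ j, ((nf.bN.repr ⟨_, h2⟩ j : ℤ) : ℝ) • fun t => ((nf.bN j : T → ℤ) t : ℝ) := by
        funext t
        have h6 := congrFun h3 t
        have h7 : (Mx.map (Int.cast : ℤ → ℝ)).row s t = ((Mx.row s t : ℤ) : ℝ) := rfl
        rw [h7, h6]
        simp
      rw [SetLike.mem_coe, h5]
      exact Submodule.sum_mem _ fun j _ => Submodule.smul_mem _ _ (Submodule.subset_span ⟨j, rfl⟩)
    refine (Submodule.finrank_mono h1).trans ?_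
    refine (finrank_range_le_card _).trans ?_
    rw [Fintype.card_fin]
  -- the rank modulo `p`
  have hP : Fintype.card {i : Fin r // ¬ (p : ℤ) ∣ nf.a i} ≤
      (Mx.map (Int.cast : ℤ → ZMod p)).rank := by
    rw [Matrix.rank_eq_finrank_span_row]
    obtain ⟨u, hu⟩ : ∃ u : {i : Fin r // ¬ (p : ℤ) ∣ nf.a i} → T → ZMod p,
        u = fun i t => ((nf.bM (nf.f i.1) t : ℤ) : ZMod p) := ⟨_, rfl⟩
    have hli : LinearIndependent (ZMod p) u := by
      rw [Fintype.linearIndependent_iff]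
      intro c hc i
      obtain ⟨w, hw⟩ : ∃ w : T → ℤ, w = ∑ j, ((c j).val : ℤ) • nf.bM (nf.f j.1) := ⟨_, rfl⟩
      have h1 : ∀ t, (p : ℤ) ∣ w t := by
        intro t
        rw [← ZMod.intCast_zmod_eq_zero_iff_dvd]
        have h2 := congrFun hc t
        rw [Finset.sum_apply] at h2
        rw [hw, Finset.sum_apply]
        push_cast
        refine Eq.trans ?_ h2
        refine Finset.sum_congr rfl fun j _ => ?_
        rw [Pi.smul_apply, Pi.smul_apply, hu, smul_eq_mul, smul_eq_mul]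
        push_cast
        rw [ZMod.natCast_zmod_val]
      choose w' hw' using h1
      have h3 : w = (p : ℤ) • w' := by
        funext t
        rw [hw' t]
        rfl
      have h4 : nf.bM.coord (nf.f i.1) w = (c i).val := by
        rw [hw, map_sum, Finset.sum_eq_single i]
        · rw [map_smul, Module.Basis.coord_apply, Module.Basis.repr_self,
            Finsupp.single_eq_same, smul_eq_mul, mul_one]
        · intro j _ hji
          rw [map_smul, Module.Basis.coord_apply, Module.Basis.repr_self,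
            Finsupp.single_apply, if_neg (fun h => hji (Subtype.ext (nf.f.injective h))),
            smul_zero]
        · intro h
          exact absurd (Finset.mem_univ i) h
      rw [h3, map_smul, smul_eq_mul] at h4
      have h5 : (((c i).val : ℤ) : ZMod p) = 0 := by
        rw [← h4]
        simp
      rwa [Int.cast_natCast, ZMod.natCast_zmod_val] at h5
    rw [← finrank_span_eq_card hli]
    apply Submodule.finrank_mono
    rw [Submodule.span_le]
    rintro _ ⟨i, rfl⟩
    rw [SetLike.mem_coe]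
    have h1 : ∀ w ∈ B, (fun t => ((w t : ℤ) : ZMod p)) ∈
        Submodule.span (ZMod p) (Set.range (Mx.map (Int.cast : ℤ → ZMod p)).row) := by
      intro w hw
      obtain ⟨v, rfl⟩ := hBv w hw
      have h2 : (fun t => (((v ᵥ* Mx) t : ℤ) : ZMod p)) =
          ∑ s, ((v s : ℤ) : ZMod p) • (Mx.map (Int.cast : ℤ → ZMod p)).row s := by
        funext t
        simp [Matrix.vecMul, dotProduct, Matrix.row]
      rw [h2]
      exact Submodule.sum_mem _ fun s _ =>
        Submodule.smul_mem _ _ (Submodule.subset_span ⟨s, rfl⟩)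
    have h2 := h1 _ (hmem i.1)
    have h3 : (fun t => (((nf.a i.1 • nf.bM (nf.f i.1)) t : ℤ) : ZMod p)) =
        ((nf.a i.1 : ℤ) : ZMod p) • u i := by
      funext t
      rw [hu]
      simp
    rw [h3] at h2
    have h4 : ((nf.a i.1 : ℤ) : ZMod p) ≠ 0 := by
      rw [Ne, ZMod.intCast_zmod_eq_zero_iff_dvd]
      exact i.2
    have h5 := Submodule.smul_mem _ ((nf.a i.1 : ℤ) : ZMod p)⁻¹ h2
    rwa [smul_smul, inv_mul_cancel₀ h4, one_smul] at h5
  have hx : ∀ i, ∃ x : S → ℤ, x ᵥ* Mx = nf.a i • nf.bM (nf.f i) := fun i => hBv _ (hmem i)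
  choose x hx using hx
  refine ⟨{i : Fin r // (p : ℤ) ∣ nf.a i}, inferInstance, inferInstance, ?_,
    fun i => nf.a i.1, fun i => nf.bM (nf.f i.1), fun i => x i.1,
    fun i => nf.bM.coord (nf.f i.1), fun i => ⟨hane _, i.2, hx _, fun v => hdiv _ (hvB v) _⟩, ?_⟩
  · have h1 : Fintype.card {i : Fin r // (p : ℤ) ∣ nf.a i} +
        Fintype.card {i : Fin r // ¬ (p : ℤ) ∣ nf.a i} = r := by
      rw [Fintype.card_subtype_compl, Fintype.card_fin]
      have := Fintype.card_subtype_le (fun i : Fin r => (p : ℤ) ∣ nf.a i)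
      rw [Fintype.card_fin] at this
      omega
    omega
  · intro i j
    rw [Module.Basis.coord_apply, Module.Basis.repr_self, Finsupp.single_apply]
    by_cases hij : i = j
    · rw [if_pos hij, if_pos (by rw [hij])]
    · rw [if_neg hij, if_neg (fun h => hij (Subtype.ext (nf.f.injective h)).symm)]

end Pool.Agent.N426.LT
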