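import Mathlib

/-!
# Project LT (helper496), parts P3S and P3T: tensor products of chains and functionals
-/

set_option autoImplicit false

open scoped Matrix

namespace Pool.Agent.N426.LT

open MonoidAlgebra

section chains

variable {ι Q : Type} [Fintype ι] [DecidableEq ι]

theorem ch_ind {P : (ι → MonoidAlgebra ℤ Q) → Prop} (h0 : P 0)
    (hadd : ∀ v w, P v → P w → P (v + w))
    (hs : ∀ i g c, P (Pi.single i (MonoidAlgebra.single g c))) (v : ι → MonoidAlgebra ℤ Q) :
    P v := by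
  have h1 : ∀ i (x : MonoidAlgebra ℤ Q), P (Pi.single i x) := by
    intro i x
    induction x using MonoidAlgebra.induction_linear with
    | zero =>
      rw [Pi.single_zero]
      exact h0
    | add x y hx hy =>
      rw [Pi.single_add]
      exact hadd _ _ hx hy
    | single g c => exact hs i g c
  have h2 : v = ∑ i, Pi.single i (v i) := by
    funext j
    rw [Finset.sum_apply]
    simp [Pi.single_apply]
  rw [h2]
  exact Finset.sum_induction _ P hadd h0 fun i _ => h1 i _

variable {R : Type} [CommRing R]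

/-- the functional on the group ring given by a function -/
noncomputable def ev (f : Q → R) : MonoidAlgebra ℤ Q →+ R :=
  (Finsupp.liftAddHom fun g => (AddMonoidHom.mulRight (f g)).comp (Int.castAddHom R)).comp
    (MonoidAlgebra.coeffAddEquiv : MonoidAlgebra ℤ Q ≃+ (Q →₀ ℤ)).toAddMonoidHom

omit [Fintype ι] [DecidableEq ι] in
theorem ev_single (f : Q → R) (g : Q) (c : ℤ) :
    ev f (MonoidAlgebra.single g c) = (c : R) * f g := by
  unfold ev
  simp

/-- the functional given by its values on the basis -/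
noncomputable def fn (f : ι → Q → R) : (ι → MonoidAlgebra ℤ Q) →+ R :=
  ∑ i, (ev (f i)).comp (Pi.evalAddMonoidHom _ i)

theorem fn_single (f : ι → Q → R) (i : ι) (g : Q) (c : ℤ) :
    fn f (Pi.single i (MonoidAlgebra.single g c)) = (c : R) * f i g := by
  unfold fn
  rw [AddMonoidHom.finsetSum_apply, Finset.sum_eq_single i]
  · rw [AddMonoidHom.comp_apply, Pi.evalAddMonoidHom_apply, Pi.single_eq_same, ev_single]
  · intro j _ hj
    rw [AddMonoidHom.comp_apply, Pi.evalAddMonoidHom_apply, Pi.single_eq_of_ne hj, map_zero]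
  · intro h
    exact absurd (Finset.mem_univ i) h

omit [Fintype ι] in
theorem map_single_int (φ : (ι → MonoidAlgebra ℤ Q) →+ R) (i : ι) (g : Q) (c : ℤ) :
    φ (Pi.single i (MonoidAlgebra.single g c)) =
      (c : R) * φ (Pi.single i (MonoidAlgebra.single g 1)) := by
  have h1 : (Pi.single i (MonoidAlgebra.single g c) : ι → MonoidAlgebra ℤ Q) =
      c • Pi.single i (MonoidAlgebra.single g 1) := by
    rw [← Pi.single_smul]
    congr 1
    rw [MonoidAlgebra.smul_single, smul_eq_mul, mul_one]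
  rw [h1, map_zsmul, zsmul_eq_mul]

end chains

/-- the group `Q` is the product of `Q₁` and `Q₂` -/
structure PD (Q₁ Q₂ Q : Type) [Group Q₁] [Group Q₂] [Group Q] where
  a : Q₁ →* Q
  b : Q₂ →* Q
  p₁ : Q → Q₁
  p₂ : Q → Q₂
  comm : ∀ g h, a g * b h = b h * a g
  h1 : ∀ g h, p₁ (a g * b h) = g
  h2 : ∀ g h, p₂ (a g * b h) = h
  h3 : ∀ q, a (p₁ q) * b (p₂ q) = q

section tensor

variable {ι κ Q₁ Q₂ Q : Type} [Fintype ι] [Fintype κ] [DecidableEq ι] [DecidableEq κ]
  [Group Q₁] [Group Q₂] [Group Q] (W : PD Q₁ Q₂ Q)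

/-- the tensor product of two chains -/
noncomputable def tens (x : ι → MonoidAlgebra ℤ Q₁) (y : κ → MonoidAlgebra ℤ Q₂) :
    ι × κ → MonoidAlgebra ℤ Q :=
  fun t => mapDomainRingHom ℤ W.a (x t.1) * mapDomainRingHom ℤ W.b (y t.2)

omit [Fintype ι] [Fintype κ] [DecidableEq ι] [DecidableEq κ] in
theorem tens_add_left (x x' : ι → MonoidAlgebra ℤ Q₁) (y : κ → MonoidAlgebra ℤ Q₂) :
    tens W (x + x') y = tens W x y + tens W x' y := by
  funext t
  simp only [tens, Pi.add_apply, map_add, add_mul]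

omit [Fintype ι] [Fintype κ] [DecidableEq ι] [DecidableEq κ] in
theorem tens_add_right (x : ι → MonoidAlgebra ℤ Q₁) (y y' : κ → MonoidAlgebra ℤ Q₂) :
    tens W x (y + y') = tens W x y + tens W x y' := by
  funext t
  simp only [tens, Pi.add_apply, map_add, mul_add]

omit [Fintype ι] [Fintype κ] [DecidableEq ι] [DecidableEq κ] in
theorem tens_zero_left (y : κ → MonoidAlgebra ℤ Q₂) :
    tens W (0 : ι → MonoidAlgebra ℤ Q₁) y = 0 := by
  funext t
  simp only [tens, Pi.zero_apply, map_zero, zero_mul]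

omit [Fintype ι] [Fintype κ] [DecidableEq ι] [DecidableEq κ] in
theorem tens_zero_right (x : ι → MonoidAlgebra ℤ Q₁) :
    tens W x (0 : κ → MonoidAlgebra ℤ Q₂) = 0 := by
  funext t
  simp only [tens, Pi.zero_apply, map_zero, mul_zero]

omit [Fintype ι] [Fintype κ] [DecidableEq ι] [DecidableEq κ] in
theorem tens_smul_left (c : ℤ) (x : ι → MonoidAlgebra ℤ Q₁) (y : κ → MonoidAlgebra ℤ Q₂) :
    tens W (c • x) y = c • tens W x y := by
  funext t
  simp only [tens, Pi.smul_apply, map_zsmul, smul_mul_assoc]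

omit [Fintype ι] [Fintype κ] [DecidableEq ι] [DecidableEq κ] in
theorem tens_smul_right (c : ℤ) (x : ι → MonoidAlgebra ℤ Q₁) (y : κ → MonoidAlgebra ℤ Q₂) :
    tens W x (c • y) = c • tens W x y := by
  funext t
  simp only [tens, Pi.smul_apply, map_zsmul, mul_smul_comm]

omit [Fintype ι] [Fintype κ] in
theorem tens_single (i : ι) (k : κ) (g : Q₁) (h : Q₂) (c c' : ℤ) :
    tens W (Pi.single i (MonoidAlgebra.single g c)) (Pi.single k (MonoidAlgebra.single h c')) =
      Pi.single (i, k) (MonoidAlgebra.single (W.a g * W.b h) (c * c')) := by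
  funext t
  unfold tens
  by_cases h1 : t.1 = i
  · by_cases h2 : t.2 = k
    · have h3 : t = (i, k) := Prod.ext h1 h2
      rw [h3, Pi.single_eq_same]
      simp only [Pi.single_eq_same]
      rw [mapDomainRingHom_apply, mapDomainRingHom_apply, mapDomain_single, mapDomain_single,
        MonoidAlgebra.single_mul_single]
    · rw [Pi.single_eq_of_ne h2, map_zero, mul_zero,
        Pi.single_eq_of_ne (fun h3 => h2 (by rw [h3]))]
  · rw [Pi.single_eq_of_ne h1, map_zero, zero_mul,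
      Pi.single_eq_of_ne (fun h3 => h1 (by rw [h3]))]

variable {R : Type} [CommRing R]

/-- the tensor product of functionals -/
noncomputable def fpr (φ : (ι → MonoidAlgebra ℤ Q₁) →+ R) (ψ : (κ → MonoidAlgebra ℤ Q₂) →+ R) :
    (ι × κ → MonoidAlgebra ℤ Q) →+ R :=
  fn fun t q => φ (Pi.single t.1 (MonoidAlgebra.single (W.p₁ q) 1)) *
    ψ (Pi.single t.2 (MonoidAlgebra.single (W.p₂ q) 1))

theorem fpr_tens (φ : (ι → MonoidAlgebra ℤ Q₁) →+ R) (ψ : (κ → MonoidAlgebra ℤ Q₂) →+ R)
    (x : ι → MonoidAlgebra ℤ Q₁) (y : κ → MonoidAlgebra ℤ Q₂) :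
    fpr W φ ψ (tens W x y) = φ x * ψ y := by
  refine ch_ind (P := fun x => fpr W φ ψ (tens W x y) = φ x * ψ y) ?_ ?_ ?_ x
  · rw [tens_zero_left, map_zero, map_zero, zero_mul]
  · intro v w hv hw
    rw [tens_add_left, map_add, map_add, hv, hw, add_mul]
  · intro i g c
    refine ch_ind (P := fun y => fpr W φ ψ (tens W (Pi.single i (MonoidAlgebra.single g c)) y) =
      φ (Pi.single i (MonoidAlgebra.single g c)) * ψ y) ?_ ?_ ?_ y
    · rw [tens_zero_right, map_zero, map_zero, mul_zero]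
    · intro v w hv hw
      rw [tens_add_right, map_add, map_add, hv, hw, mul_add]
    · intro k h c'
      rw [tens_single, fpr, fn_single, W.h1, W.h2, map_single_int φ i g c,
        map_single_int ψ k h c']
      push_cast
      ring

end tensor

section boundary

variable {ι κ Q₁ Q₂ Q : Type} [Fintype ι] [Fintype κ] [DecidableEq ι] [DecidableEq κ]
  [Group Q₁] [Group Q₂] [Group Q] (W : PD Q₁ Q₂ Q)

/-- the sign change -/
noncomputable def sgn (deg : ι → ℕ) (x : ι → MonoidAlgebra ℤ Q₁) : ι → MonoidAlgebra ℤ Q₁ :=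
  fun i => (-1 : ℤ) ^ deg i • x i

/-- `D` is the boundary of the product of complexes with boundaries `D₁` and `D₂` -/
def IsPr (deg : ι → ℕ) (D₁ : Matrix ι ι (MonoidAlgebra ℤ Q₁)) (D₂ : Matrix κ κ (MonoidAlgebra ℤ Q₂))
    (D : Matrix (ι × κ) (ι × κ) (MonoidAlgebra ℤ Q)) : Prop :=
  ∀ x y, D x y = (if x.2 = y.2 then mapDomainRingHom ℤ W.a (D₁ x.1 y.1) else 0) +
    (if x.1 = y.1 then (-1) ^ deg x.1 * mapDomainRingHom ℤ W.b (D₂ x.2 y.2) else 0)

omit [Fintype ι] [Fintype κ] [DecidableEq ι] [DecidableEq κ] in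
theorem comm_ab (r : MonoidAlgebra ℤ Q₁) (s : MonoidAlgebra ℤ Q₂) :
    mapDomainRingHom ℤ W.a r * mapDomainRingHom ℤ W.b s =
      mapDomainRingHom ℤ W.b s * mapDomainRingHom ℤ W.a r := by
  induction r using MonoidAlgebra.induction_linear with
  | zero => rw [map_zero, zero_mul, mul_zero]
  | add x y hx hy => rw [map_add, add_mul, mul_add, hx, hy]
  | single g c =>
    induction s using MonoidAlgebra.induction_linear with
    | zero => rw [map_zero, zero_mul, mul_zero]
    | add x y hx hy => rw [map_add, mul_add, add_mul, hx, hy]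
    | single h c' =>
      rw [mapDomainRingHom_apply, mapDomainRingHom_apply, mapDomain_single, mapDomain_single,
        MonoidAlgebra.single_mul_single, MonoidAlgebra.single_mul_single, W.comm, mul_comm c]

variable {deg : ι → ℕ} {D₁ : Matrix ι ι (MonoidAlgebra ℤ Q₁)} {D₂ : Matrix κ κ (MonoidAlgebra ℤ Q₂)}
  {D : Matrix (ι × κ) (ι × κ) (MonoidAlgebra ℤ Q)}

theorem bd_tens (hD : IsPr W deg D₁ D₂ D) (x : ι → MonoidAlgebra ℤ Q₁)
    (y : κ → MonoidAlgebra ℤ Q₂) :
    tens W x y ᵥ* D = tens W (x ᵥ* D₁) y + tens W (sgn deg x) (y ᵥ* D₂) := by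
  funext t
  obtain ⟨j, l⟩ := t
  have h1 : (tens W x y ᵥ* D) (j, l) = ∑ i, ∑ k, tens W x y (i, k) * D (i, k) (j, l) := by
    rw [Matrix.vecMul, dotProduct, Fintype.sum_prod_type]
  rw [h1, Pi.add_apply]
  have h2 : ∀ i k, tens W x y (i, k) * D (i, k) (j, l) =
      (if k = l then mapDomainRingHom ℤ W.a (x i * D₁ i j) * mapDomainRingHom ℤ W.b (y l) else 0) +
      (if i = j then mapDomainRingHom ℤ W.a ((-1 : ℤ) ^ deg j • x j) *
        mapDomainRingHom ℤ W.b (y k * D₂ k l) else 0) := by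
    intro i k
    rw [hD]
    unfold tens
    rw [mul_add]
    congr 1
    · by_cases hk : k = l
      · rw [if_pos hk, if_pos hk, hk, map_mul, mul_assoc, ← comm_ab, ← mul_assoc]
      · rw [if_neg hk, if_neg hk, mul_zero]
    · by_cases hi : i = j
      · rw [if_pos hi, if_pos hi, hi, map_mul, map_zsmul]
        show mapDomainRingHom ℤ W.a (x j) * mapDomainRingHom ℤ W.b (y k) *
          ((-1) ^ deg j * mapDomainRingHom ℤ W.b (D₂ k l)) = _
        have h3 : (-1 : MonoidAlgebra ℤ Q) ^ deg j = (((-1 : ℤ) ^ deg j : ℤ) : MonoidAlgebra ℤ Q) := by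
          push_cast
          rfl
        rw [h3, ← zsmul_eq_mul, mul_smul_comm, smul_mul_assoc, mul_assoc]
      · rw [if_neg hi, if_neg hi, mul_zero]
  have h3 : ∑ i, ∑ k, tens W x y (i, k) * D (i, k) (j, l) =
      (∑ i, mapDomainRingHom ℤ W.a (x i * D₁ i j) * mapDomainRingHom ℤ W.b (y l)) +
      ∑ k, mapDomainRingHom ℤ W.a ((-1 : ℤ) ^ deg j • x j) *
        mapDomainRingHom ℤ W.b (y k * D₂ k l) := by
    simp only [h2, Finset.sum_add_distrib]
    congr 1
    · refine Finset.sum_congr rfl fun i _ => ?_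
      simp
    · rw [Finset.sum_comm]
      refine Finset.sum_congr rfl fun k _ => ?_
      simp
  rw [h3]
  congr 1
  · show _ = mapDomainRingHom ℤ W.a ((x ᵥ* D₁) j) * mapDomainRingHom ℤ W.b (y l)
    rw [Matrix.vecMul, dotProduct, map_sum, Finset.sum_mul]
  · show _ = mapDomainRingHom ℤ W.a ((-1 : ℤ) ^ deg j • x j) *
      mapDomainRingHom ℤ W.b ((y ᵥ* D₂) l)
    rw [Matrix.vecMul, dotProduct, map_sum, Finset.mul_sum]

variable {R : Type} [CommRing R]

theorem fpr_coc (hD : IsPr W deg D₁ D₂ D) (φ : (ι → MonoidAlgebra ℤ Q₁) →+ R)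
    (ψ : (κ → MonoidAlgebra ℤ Q₂) →+ R) (hφ : ∀ v, φ (v ᵥ* D₁) = 0) (hψ : ∀ v, ψ (v ᵥ* D₂) = 0)
    (v : ι × κ → MonoidAlgebra ℤ Q) : fpr W φ ψ (v ᵥ* D) = 0 := by
  refine ch_ind (P := fun v => fpr W φ ψ (v ᵥ* D) = 0) ?_ ?_ ?_ v
  · rw [Matrix.zero_vecMul, map_zero]
  · intro v w hv hw
    rw [Matrix.add_vecMul, map_add, hv, hw, add_zero]
  · rintro ⟨i, k⟩ q c
    have h1 : (Pi.single (i, k) (MonoidAlgebra.single q c) : ι × κ → MonoidAlgebra ℤ Q) =
        tens W (Pi.single i (MonoidAlgebra.single (W.p₁ q) c))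
          (Pi.single k (MonoidAlgebra.single (W.p₂ q) 1)) := by
      rw [tens_single, W.h3, mul_one]
    rw [h1, bd_tens W hD, map_add, fpr_tens, fpr_tens, hφ, hψ, zero_mul, mul_zero, add_zero]

end boundary

end Pool.Agent.N426.LT
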