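import Pool.Agent.N496.LT.Stm
import Pool.Agent.N426.LT.Ab
import Pool.Agent.N426.LT.Pr

/-!
# Project LT (helper496), parts P3S and P3T: torsion classes detected modulo `p`
-/

set_option autoImplicit false

open scoped Matrix

namespace Pool.Agent.N426.LT

open Pool.Agent.N496.LT MonoidAlgebra

section det

variable {Q : Type} [Group Q]

/-- torsion classes in degree `n` detected by functionals modulo `p` -/
structure Det (A : GCx Q) (p n : ℕ) (I : Type) [DecidableEq I] where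
  z : I → A.ι → MonoidAlgebra ℤ Q
  φ : I → (A.ι → MonoidAlgebra ℤ Q) →+ ZMod p
  cyc : ∀ i, z i ∈ A.cyc n
  tor : ∀ i, ∃ m : ℤ, m ≠ 0 ∧ m • z i ∈ A.bdy n
  coc : ∀ i v, φ i (v ᵥ* A.D) = 0
  dual : ∀ i j, φ i (z j) = if i = j then 1 else 0

theorem Det.le [Finite Q] {A : GCx Q} {p n : ℕ} [Fact p.Prime] {I : Type} [DecidableEq I]
    [Fintype I] (X : Det A p n I) : p ^ Fintype.card I ≤ A.torsOrder n := by
  have h1 : Module.Finite ℤ (MonoidAlgebra ℤ Q) :=
    Module.Finite.equiv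
      ((MonoidAlgebra.coeffAddEquiv : MonoidAlgebra ℤ Q ≃+ (Q →₀ ℤ)).toIntLinearEquiv).symm
  refine tors_ge (A.cyc n) (A.bdy n) p X.z X.cyc X.tor X.φ ?_ X.dual
  rintro i _ ⟨u, _, rfl⟩
  exact X.coc i u

/-- elementary summands of a complex -/
structure El (A : GCx Q) (p d : ℕ) (I : Type) [DecidableEq I] where
  a : I → ℤ
  x : I → A.ι → MonoidAlgebra ℤ Q
  y : I → A.ι → MonoidAlgebra ℤ Q
  φ : I → (A.ι → MonoidAlgebra ℤ Q) →+ ZMod p
  γ : I → (A.ι → MonoidAlgebra ℤ Q) →+ ZMod p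
  ane : ∀ i, a i ≠ 0
  xdeg : ∀ i j, A.deg j ≠ d + 1 → x i j = 0
  ydeg : ∀ i j, A.deg j ≠ d → y i j = 0
  dx : ∀ i, x i ᵥ* A.D = a i • y i
  dy : ∀ i, y i ᵥ* A.D = 0
  φc : ∀ i v, φ i (v ᵥ* A.D) = 0
  γc : ∀ i v, γ i (v ᵥ* A.D) = 0
  φy : ∀ i j, φ i (y j) = if i = j then 1 else 0
  γx : ∀ i j, γ i (x j) = if i = j then 1 else 0
  φx : ∀ i j, φ i (x j) = 0
  γy : ∀ i j, γ i (y j) = 0

/-- the classes of the `y i` -/
def El.det {A : GCx Q} {p d : ℕ} {I : Type} [DecidableEq I] (X : El A p d I) : Det A p d I where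
  z := X.y
  φ := X.φ
  cyc i := ⟨X.ydeg i, X.dy i⟩
  tor i := ⟨X.a i, X.ane i, X.x i, X.xdeg i, X.dx i⟩
  coc := X.φc
  dual := X.φy

end det

section prod

variable {G H : Type} [Group G] [Group H] (C : GCx G) (E : GCx H) (N₁ : Subgroup G)
  (N₂ : Subgroup H) [N₁.Normal] [N₂.Normal]

/-- the quotient of the product -/
def pd : PD (G ⧸ N₁) (H ⧸ N₂) ((G × H) ⧸ N₁.prod N₂) where
  a := QuotientGroup.map N₁ (N₁.prod N₂) (MonoidHom.inl G H) fun g hg => by
    rw [Subgroup.mem_comap, Subgroup.mem_prod]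
    exact ⟨hg, one_mem _⟩
  b := QuotientGroup.map N₂ (N₁.prod N₂) (MonoidHom.inr G H) fun g hg => by
    rw [Subgroup.mem_comap, Subgroup.mem_prod]
    exact ⟨one_mem _, hg⟩
  p₁ := QuotientGroup.map (N₁.prod N₂) N₁ (MonoidHom.fst G H) fun g hg => by
    rw [Subgroup.mem_comap]
    exact (Subgroup.mem_prod.1 hg).1
  p₂ := QuotientGroup.map (N₁.prod N₂) N₂ (MonoidHom.snd G H) fun g hg => by
    rw [Subgroup.mem_comap]
    exact (Subgroup.mem_prod.1 hg).2
  comm g h := by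
    induction g using QuotientGroup.induction_on with
    | H g =>
      induction h using QuotientGroup.induction_on with
      | H h =>
        rw [QuotientGroup.map_mk, QuotientGroup.map_mk, ← QuotientGroup.mk_mul,
          ← QuotientGroup.mk_mul]
        congr 1
        simp
  h1 g h := by
    induction g using QuotientGroup.induction_on with
    | H g =>
      induction h using QuotientGroup.induction_on with
      | H h =>
        rw [QuotientGroup.map_mk, QuotientGroup.map_mk, ← QuotientGroup.mk_mul,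
          QuotientGroup.map_mk]
        congr 1
        simp
  h2 g h := by
    induction g using QuotientGroup.induction_on with
    | H g =>
      induction h using QuotientGroup.induction_on with
      | H h =>
        rw [QuotientGroup.map_mk, QuotientGroup.map_mk, ← QuotientGroup.mk_mul,
          QuotientGroup.map_mk]
        congr 1
        simp
  h3 q := by
    induction q using QuotientGroup.induction_on with
    | H q =>
      rw [QuotientGroup.map_mk, QuotientGroup.map_mk, QuotientGroup.map_mk, QuotientGroup.map_mk,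
        ← QuotientGroup.mk_mul]
      congr 1
      simp

theorem isPr : IsPr (pd N₁ N₂) (C.quot N₁).deg (C.quot N₁).D (E.quot N₂).D
    ((C.prod E).quot (N₁.prod N₂)).D := by
  intro x y
  have h1 : ((C.prod E).quot (N₁.prod N₂)).D x y =
      MonoidAlgebra.mapDomainRingHom ℤ (QuotientGroup.mk' (N₁.prod N₂)) ((C.prod E).D x y) := rfl
  have h2 : (C.prod E).D x y =
    (if x.2 = y.2 then MonoidAlgebra.mapDomainRingHom ℤ (MonoidHom.inl G H) (C.D x.1 y.1) else 0) +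
    (if x.1 = y.1 then (-1) ^ C.deg x.1 * MonoidAlgebra.mapDomainRingHom ℤ (MonoidHom.inr G H)
      (E.D x.2 y.2) else 0) := rfl
  have h3 : ∀ c, MonoidAlgebra.mapDomainRingHom ℤ (QuotientGroup.mk' (N₁.prod N₂))
      (MonoidAlgebra.mapDomainRingHom ℤ (MonoidHom.inl G H) c) =
      MonoidAlgebra.mapDomainRingHom ℤ (pd N₁ N₂).a
        (MonoidAlgebra.mapDomainRingHom ℤ (QuotientGroup.mk' N₁) c) := by
    intro c
    rw [← RingHom.comp_apply, ← RingHom.comp_apply, ← mapDomainRingHom_comp,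
      ← mapDomainRingHom_comp]
    rfl
  have h4 : ∀ c, MonoidAlgebra.mapDomainRingHom ℤ (QuotientGroup.mk' (N₁.prod N₂))
      (MonoidAlgebra.mapDomainRingHom ℤ (MonoidHom.inr G H) c) =
      MonoidAlgebra.mapDomainRingHom ℤ (pd N₁ N₂).b
        (MonoidAlgebra.mapDomainRingHom ℤ (QuotientGroup.mk' N₂) c) := by
    intro c
    rw [← RingHom.comp_apply, ← RingHom.comp_apply, ← mapDomainRingHom_comp,
      ← mapDomainRingHom_comp]
    rfl
  rw [h1, h2, map_add]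
  congr 1
  · by_cases h : x.2 = y.2
    · rw [if_pos h, if_pos h, h3]
      rfl
    · rw [if_neg h, if_neg h, map_zero]
  · by_cases h : x.1 = y.1
    · rw [if_pos h, if_pos h, map_mul, h4, map_pow, map_neg, map_one]
      rfl
    · rw [if_neg h, if_neg h, map_zero]

variable {C E N₁ N₂}

/-- the tensor product of two chains -/
noncomputable def tn (x : (C.quot N₁).ι → MonoidAlgebra ℤ (G ⧸ N₁))
    (y : (E.quot N₂).ι → MonoidAlgebra ℤ (H ⧸ N₂)) :
    ((C.prod E).quot (N₁.prod N₂)).ι → MonoidAlgebra ℤ ((G × H) ⧸ N₁.prod N₂) :=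
  tens (pd N₁ N₂) x y

/-- the tensor product of two functionals -/
noncomputable def fp {R : Type} [CommRing R]
    (φ : ((C.quot N₁).ι → MonoidAlgebra ℤ (G ⧸ N₁)) →+ R)
    (ψ : ((E.quot N₂).ι → MonoidAlgebra ℤ (H ⧸ N₂)) →+ R) :
    (((C.prod E).quot (N₁.prod N₂)).ι → MonoidAlgebra ℤ ((G × H) ⧸ N₁.prod N₂)) →+ R :=
  fpr (pd N₁ N₂) φ ψ

theorem fp_tn {R : Type} [CommRing R] (φ : ((C.quot N₁).ι → MonoidAlgebra ℤ (G ⧸ N₁)) →+ R)
    (ψ : ((E.quot N₂).ι → MonoidAlgebra ℤ (H ⧸ N₂)) →+ R)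
    (x : (C.quot N₁).ι → MonoidAlgebra ℤ (G ⧸ N₁))
    (y : (E.quot N₂).ι → MonoidAlgebra ℤ (H ⧸ N₂)) : fp φ ψ (tn x y) = φ x * ψ y :=
  fpr_tens (pd N₁ N₂) φ ψ x y

theorem fp_coc {R : Type} [CommRing R] (φ : ((C.quot N₁).ι → MonoidAlgebra ℤ (G ⧸ N₁)) →+ R)
    (ψ : ((E.quot N₂).ι → MonoidAlgebra ℤ (H ⧸ N₂)) →+ R)
    (hφ : ∀ v, φ (v ᵥ* (C.quot N₁).D) = 0) (hψ : ∀ v, ψ (v ᵥ* (E.quot N₂).D) = 0) (v) :
    fp φ ψ (v ᵥ* ((C.prod E).quot (N₁.prod N₂)).D) = 0 :=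
  fpr_coc (pd N₁ N₂) (isPr C E N₁ N₂) φ ψ hφ hψ v

theorem bd_tn (x : (C.quot N₁).ι → MonoidAlgebra ℤ (G ⧸ N₁))
    (y : (E.quot N₂).ι → MonoidAlgebra ℤ (H ⧸ N₂)) :
    tn x y ᵥ* ((C.prod E).quot (N₁.prod N₂)).D =
      tn (x ᵥ* (C.quot N₁).D) y + tn (sgn (C.quot N₁).deg x) (y ᵥ* (E.quot N₂).D) :=
  bd_tens (pd N₁ N₂) (isPr C E N₁ N₂) x y

theorem tn_deg {n m k : ℕ} (x : (C.quot N₁).ι → MonoidAlgebra ℤ (G ⧸ N₁))
    (y : (E.quot N₂).ι → MonoidAlgebra ℤ (H ⧸ N₂)) (hx : ∀ i, (C.quot N₁).deg i ≠ n → x i = 0)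
    (hy : ∀ i, (E.quot N₂).deg i ≠ m → y i = 0) (hk : n + m = k)
    (t : ((C.prod E).quot (N₁.prod N₂)).ι)
    (ht : ((C.prod E).quot (N₁.prod N₂)).deg t ≠ k) : tn x y t = 0 := by
  have h0 : C.deg t.1 + E.deg t.2 ≠ k := ht
  show mapDomainRingHom ℤ (pd N₁ N₂).a (x t.1) * mapDomainRingHom ℤ (pd N₁ N₂).b (y t.2) = 0
  by_cases h1 : C.deg t.1 = n
  · have h2 : E.deg t.2 ≠ m := fun h2 => h0 (by rw [h1, h2, hk])
    rw [hy _ h2, map_zero, mul_zero]
  · rw [hx _ h1, map_zero, zero_mul]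

theorem tn_zero_left (y : (E.quot N₂).ι → MonoidAlgebra ℤ (H ⧸ N₂)) :
    tn (0 : (C.quot N₁).ι → MonoidAlgebra ℤ (G ⧸ N₁)) y = 0 := tens_zero_left _ y

theorem tn_zero_right (x : (C.quot N₁).ι → MonoidAlgebra ℤ (G ⧸ N₁)) :
    tn x (0 : (E.quot N₂).ι → MonoidAlgebra ℤ (H ⧸ N₂)) = 0 := tens_zero_right _ x

theorem tn_smul_left (c : ℤ) (x : (C.quot N₁).ι → MonoidAlgebra ℤ (G ⧸ N₁))
    (y : (E.quot N₂).ι → MonoidAlgebra ℤ (H ⧸ N₂)) : tn (c • x) y = c • tn x y :=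
  tens_smul_left _ c x y

theorem tn_smul_right (c : ℤ) (x : (C.quot N₁).ι → MonoidAlgebra ℤ (G ⧸ N₁))
    (y : (E.quot N₂).ι → MonoidAlgebra ℤ (H ⧸ N₂)) : tn x (c • y) = c • tn x y :=
  tens_smul_right _ c x y

/-- products of classes -/
noncomputable def Det.pr {p n m k : ℕ} {I J : Type} [DecidableEq I] [DecidableEq J]
    (X : Det (C.quot N₁) p n I) (Y : Det (E.quot N₂) p m J) (hk : n + m = k) :
    Det ((C.prod E).quot (N₁.prod N₂)) p k (I × J) where
  z t := tn (X.z t.1) (Y.z t.2)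
  φ t := fp (X.φ t.1) (Y.φ t.2)
  cyc t := by
    refine ⟨fun s hs => tn_deg _ _ (X.cyc t.1).1 (Y.cyc t.2).1 hk s hs, ?_⟩
    rw [bd_tn, (X.cyc t.1).2, (Y.cyc t.2).2, tn_zero_left, tn_zero_right, add_zero]
  tor t := by
    obtain ⟨c, hc, u, hu, hu2⟩ := X.tor t.1
    refine ⟨c, hc, tn u (Y.z t.2), fun s hs => tn_deg _ _ hu (Y.cyc t.2).1 (by omega) s hs, ?_⟩
    rw [bd_tn, (Y.cyc t.2).2, tn_zero_right, add_zero, hu2, tn_smul_left]
  coc t v := fp_coc _ _ (X.coc t.1) (Y.coc t.2) v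
  dual s t := by
    rw [fp_tn, X.dual, Y.dual]
    by_cases h1 : s.1 = t.1
    · by_cases h2 : s.2 = t.2
      · rw [if_pos h1, if_pos h2, if_pos (Prod.ext h1 h2), mul_one]
      · have h3 : s ≠ t := fun h => h2 (by rw [h])
        rw [if_neg h2, if_neg h3, mul_zero]
    · have h3 : s ≠ t := fun h => h1 (by rw [h])
      rw [if_neg h1, if_neg h3, zero_mul]

theorem bezout (a b : ℤ) (ha : a ≠ 0) : ∃ g α β u v : ℤ, g ≠ 0 ∧ b = g * α ∧ a = g * β ∧
    u * α + v * β = 1 := by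
  have h1 : ((Int.gcd a b : ℕ) : ℤ) ≠ 0 := by
    intro h
    have h2 : Int.gcd a b = 0 := by exact_mod_cast h
    exact ha (Int.gcd_eq_zero_iff.1 h2).1
  obtain ⟨β, hβ⟩ := Int.gcd_dvd_left (a := a) (b := b)
  obtain ⟨α, hα⟩ := Int.gcd_dvd_right (a := a) (b := b)
  refine ⟨_, α, β, Int.gcdB a b, Int.gcdA a b, h1, hα, hβ, ?_⟩
  have h2 := Int.gcd_eq_gcd_ab a b
  apply mul_left_cancel₀ h1
  linear_combination -h2 - Int.gcdA a b * hβ - Int.gcdB a b * hα

/-- torsion products -/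
theorem El.tor {p d d' k : ℕ} {I J : Type} [DecidableEq I] [DecidableEq J]
    (X : El (C.quot N₁) p d I) (Y : El (E.quot N₂) p d' J) (hk : d + d' + 1 = k) :
    Nonempty (Det ((C.prod E).quot (N₁.prod N₂)) p k (I × J)) := by
  choose g α β u v hg hα hβ huv using fun t : I × J => bezout (X.a t.1) (Y.a t.2) (X.ane t.1)
  obtain ⟨s, hs⟩ : ∃ s : ℤ, s = (-1) ^ d := ⟨_, rfl⟩
  have hs2 : s * s = 1 := by
    rw [hs, ← pow_add, ← two_mul, pow_mul]
    norm_num
  have hsy : ∀ i, sgn (C.quot N₁).deg (X.y i) = s • X.y i := by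
    intro i
    funext j
    show (-1 : ℤ) ^ (C.quot N₁).deg j • X.y i j = s • X.y i j
    by_cases h : (C.quot N₁).deg j = d
    · rw [h, hs]
    · rw [X.ydeg i j h, smul_zero, smul_zero]
  have hsx : ∀ i, sgn (C.quot N₁).deg (X.x i) = (-s) • X.x i := by
    intro i
    funext j
    show (-1 : ℤ) ^ (C.quot N₁).deg j • X.x i j = (-s) • X.x i j
    by_cases h : (C.quot N₁).deg j = d + 1
    · rw [h, hs, pow_succ, mul_neg_one]
    · rw [X.xdeg i j h, smul_zero, smul_zero]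
  have b1 : ∀ i j, tn (X.x i) (Y.y j) ᵥ* ((C.prod E).quot (N₁.prod N₂)).D =
      X.a i • tn (X.y i) (Y.y j) := by
    intro i j
    rw [bd_tn, X.dx, Y.dy, tn_zero_right, add_zero, tn_smul_left]
  have b2 : ∀ i j, tn (X.y i) (Y.x j) ᵥ* ((C.prod E).quot (N₁.prod N₂)).D =
      (s * Y.a j) • tn (X.y i) (Y.y j) := by
    intro i j
    rw [bd_tn, X.dy, Y.dx, tn_zero_left, zero_add, tn_smul_right, hsy, tn_smul_left, smul_smul,
      mul_comm]
  have b3 : ∀ i j, tn (X.x i) (Y.x j) ᵥ* ((C.prod E).quot (N₁.prod N₂)).D =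
      X.a i • tn (X.y i) (Y.x j) - (s * Y.a j) • tn (X.x i) (Y.y j) := by
    intro i j
    rw [bd_tn, X.dx, Y.dx, tn_smul_left, tn_smul_right, hsx, tn_smul_left, smul_smul, sub_eq_add_neg,
      ← neg_smul]
    congr 2
    ring
  refine ⟨{
    z := fun t => α t • tn (X.x t.1) (Y.y t.2) - (s * β t) • tn (X.y t.1) (Y.x t.2)
    φ := fun t => u t • fp (X.γ t.1) (Y.φ t.2) - (s * v t) • fp (X.φ t.1) (Y.γ t.2)
    cyc := ?_
    tor := ?_
    coc := ?_
    dual := ?_ }⟩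
  · intro t
    refine ⟨fun r hr => ?_, ?_⟩
    · rw [Pi.sub_apply, Pi.smul_apply, Pi.smul_apply,
        tn_deg _ _ (X.xdeg t.1) (Y.ydeg t.2) (by omega) r hr,
        tn_deg _ _ (X.ydeg t.1) (Y.xdeg t.2) (by omega) r hr, smul_zero, smul_zero, sub_zero]
    · rw [Matrix.sub_vecMul, Matrix.smul_vecMul, Matrix.smul_vecMul, b1, b2, smul_smul, smul_smul,
        ← sub_smul]
      have h1 : α t * X.a t.1 - s * β t * (s * Y.a t.2) = 0 := by
        have e1 := hα t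
        have e2 := hβ t
        linear_combination α t * e2 - β t * (s * s) * e1 - g t * α t * β t * hs2
      rw [h1, zero_smul]
  · intro t
    refine ⟨g t, hg t, (-s) • tn (X.x t.1) (Y.x t.2), fun r hr => ?_, ?_⟩
    · rw [Pi.smul_apply, tn_deg _ _ (X.xdeg t.1) (Y.xdeg t.2) (by omega) r hr, smul_zero]
    · rw [Matrix.smul_vecMul, b3, smul_sub, smul_sub, smul_smul, smul_smul, smul_smul, smul_smul]
      have e1 := hα t
      have e2 := hβ t
      have h1 : g t * α t = s * (s * Y.a t.2) := by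
        linear_combination -e1 - Y.a t.2 * hs2
      have h2 : g t * (s * β t) = s * X.a t.1 := by
        linear_combination -s * e2
      rw [h1, h2, neg_mul, neg_mul, neg_smul, neg_smul]
      abel
  · intro t w
    rw [AddMonoidHom.sub_apply]
    show u t • fp (X.γ t.1) (Y.φ t.2) (w ᵥ* ((C.prod E).quot (N₁.prod N₂)).D) -
      (s * v t) • fp (X.φ t.1) (Y.γ t.2) (w ᵥ* ((C.prod E).quot (N₁.prod N₂)).D) = 0
    rw [fp_coc _ _ (X.γc _) (Y.φc _), fp_coc _ _ (X.φc _) (Y.γc _), smul_zero, smul_zero, sub_zero]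
  · intro t r
    rw [AddMonoidHom.sub_apply, map_sub, map_sub, map_zsmul, map_zsmul, map_zsmul, map_zsmul]
    show α r • u t • fp (X.γ t.1) (Y.φ t.2) (tn (X.x r.1) (Y.y r.2)) -
      (s * β r) • u t • fp (X.γ t.1) (Y.φ t.2) (tn (X.y r.1) (Y.x r.2)) -
      (α r • (s * v t) • fp (X.φ t.1) (Y.γ t.2) (tn (X.x r.1) (Y.y r.2)) -
      (s * β r) • (s * v t) • fp (X.φ t.1) (Y.γ t.2) (tn (X.y r.1) (Y.x r.2))) = _
    rw [fp_tn, fp_tn, fp_tn, fp_tn, X.γx, Y.φy, X.γy, X.φx, X.φy, Y.γx]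
    by_cases h1 : t.1 = r.1
    · by_cases h2 : t.2 = r.2
      · have h3 : t = r := Prod.ext h1 h2
        subst h3
        have e1 := huv t
        simp only [if_true, mul_one, zero_mul, smul_zero, sub_zero, zero_sub, sub_neg_eq_add]
        rw [smul_smul, smul_smul, ← add_smul]
        have h4 : α t * u t + s * β t * (s * v t) = 1 := by
          linear_combination e1 + β t * v t * hs2
        rw [h4, one_smul]
      · have h3 : t ≠ r := fun h => h2 (by rw [h])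
        rw [if_neg h2, if_neg h3]
        simp
    · have h3 : t ≠ r := fun h => h1 (by rw [h])
      rw [if_neg h1, if_neg h3]
      simp

end prod

end Pool.Agent.N426.LT
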