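import Pool.Agent.N426.LT.Det

/-!
# Project LT (helper496), parts P3S and P3T: elementary summands from the Smith normal form
-/

set_option autoImplicit false

open scoped Matrix

namespace Pool.Agent.N426.LT

open Pool.Agent.N496.LT MonoidAlgebra

section el

variable {Q : Type} [Group Q] [Fintype Q] (A : GCx Q)

/-- the coordinates of a chain -/
noncomputable def co : (A.ι → MonoidAlgebra ℤ Q) ≃ₗ[ℤ] (A.ι × Q → ℤ) where
  toFun v t := (v t.1).coeff t.2
  invFun w i := MonoidAlgebra.ofCoeff (Finsupp.equivFunOnFinite.symm fun q => w (i, q))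
  map_add' v w := rfl
  map_smul' c v := rfl
  left_inv v := by
    funext i
    apply MonoidAlgebra.coeff_injective
    ext q
    rfl
  right_inv w := rfl

theorem co_apply (v : A.ι → MonoidAlgebra ℤ Q) (t : A.ι × Q) : co A v t = (v t.1).coeff t.2 := rfl

theorem co_single [DecidableEq Q] (i : A.ι) (g : Q) (c : ℤ) :
    co A (Pi.single i (MonoidAlgebra.single g c)) = Pi.single (i, g) c := by
  funext t
  rw [co_apply]
  by_cases h1 : t.1 = i
  · by_cases h2 : t.2 = g
    · have h3 : t = (i, g) := Prod.ext h1 h2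
      rw [h3, Pi.single_eq_same, Pi.single_eq_same, MonoidAlgebra.coeff_single,
        Finsupp.single_eq_same]
    · have h3 : t ≠ (i, g) := fun h => h2 (by rw [h])
      rw [Pi.single_eq_of_ne h3, h1, Pi.single_eq_same, MonoidAlgebra.coeff_single,
        Finsupp.single_eq_of_ne h2]
  · have h3 : t ≠ (i, g) := fun h => h1 (by rw [h])
    rw [Pi.single_eq_of_ne h3, Pi.single_eq_of_ne h1]
    rfl

theorem co_vecMul (v : A.ι → MonoidAlgebra ℤ Q) : co A (v ᵥ* A.D) = co A v ᵥ* A.mat ℤ := by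
  classical
  refine ch_ind (P := fun v => co A (v ᵥ* A.D) = co A v ᵥ* A.mat ℤ) ?_ ?_ ?_ v
  · rw [Matrix.zero_vecMul, map_zero, Matrix.zero_vecMul]
  · intro v w hv hw
    rw [Matrix.add_vecMul, map_add, map_add, Matrix.add_vecMul, hv, hw]
  · intro i g c
    rw [co_single, Matrix.single_vecMul, Matrix.single_vecMul]
    funext t
    rw [co_apply]
    show (MonoidAlgebra.single g c * A.D i t.1).coeff t.2 =
      c * (A.D i t.1).coeff (g⁻¹ * t.2)
    exact MonoidAlgebra.coeff_single_mul_apply _ _ _ _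

/-- the part of degree `n` -/
noncomputable def pr (n : ℕ) : (A.ι → MonoidAlgebra ℤ Q) →+ (A.ι → MonoidAlgebra ℤ Q) where
  toFun v i := if A.deg i = n then v i else 0
  map_zero' := by
    funext i
    simp
  map_add' v w := by
    funext i
    by_cases h : A.deg i = n
    · simp [h]
    · simp [h]

omit [Fintype Q] in
theorem pr_apply (n : ℕ) (v : A.ι → MonoidAlgebra ℤ Q) (i : A.ι) :
    pr A n v i = if A.deg i = n then v i else 0 := rfl

omit [Fintype Q] in
theorem pr_same {n : ℕ} {v : A.ι → MonoidAlgebra ℤ Q} (h : ∀ i, A.deg i ≠ n → v i = 0) :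
    pr A n v = v := by
  funext i
  rw [pr_apply]
  by_cases h1 : A.deg i = n
  · rw [if_pos h1]
  · rw [if_neg h1, h i h1]

omit [Fintype Q] in
theorem pr_ne {n m : ℕ} (hnm : n ≠ m) {v : A.ι → MonoidAlgebra ℤ Q}
    (h : ∀ i, A.deg i ≠ n → v i = 0) : pr A m v = 0 := by
  funext i
  rw [pr_apply]
  by_cases h1 : A.deg i = m
  · rw [if_pos h1, h i (fun h2 => hnm (by rw [← h2, h1]))]
    rfl
  · rw [if_neg h1]
    rfl

omit [Fintype Q] in
theorem pr_bd (n : ℕ) (v : A.ι → MonoidAlgebra ℤ Q) :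
    pr A (n + 1) v ᵥ* A.D = pr A n (v ᵥ* A.D) := by
  funext j
  rw [pr_apply, Matrix.vecMul, dotProduct, Matrix.vecMul, dotProduct]
  by_cases h : A.deg j = n
  · rw [if_pos h]
    refine Finset.sum_congr rfl fun i _ => ?_
    rw [pr_apply]
    by_cases h0 : A.D i j = 0
    · rw [h0, mul_zero, mul_zero]
    · rw [if_pos (by rw [A.D_deg _ _ h0, h])]
  · rw [if_neg h]
    refine Finset.sum_eq_zero fun i _ => ?_
    rw [pr_apply]
    by_cases h0 : A.D i j = 0
    · rw [h0, mul_zero]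
    · rw [if_neg (fun h1 => h (by have := A.D_deg _ _ h0; omega)), zero_mul]

omit [Fintype Q] in
theorem bd_bd (v : A.ι → MonoidAlgebra ℤ Q) : v ᵥ* A.D ᵥ* A.D = 0 := by
  rw [Matrix.vecMul_vecMul, A.D_sq, Matrix.vecMul_zero]

/-- the matrix of the boundary in degree `n` -/
def mx (n : ℕ) : Matrix {x : A.ι × Q // A.deg x.1 = n} (A.ι × Q) ℤ :=
  (A.mat ℤ).submatrix (fun x => x.1) id

theorem mx_mul (n : ℕ) (u : {x : A.ι × Q // A.deg x.1 = n} → ℤ) :
    u ᵥ* mx A n =
      (fun t : A.ι × Q => if h : A.deg t.1 = n then u ⟨t, h⟩ else 0) ᵥ* A.mat ℤ := by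
  funext t
  have h1 := sum_deg (fun t : A.ι × Q => A.deg t.1) n
    (fun s => (if h : A.deg s.1 = n then u ⟨s, h⟩ else 0) * A.mat ℤ s t) (fun k hk => by
      rw [dif_neg hk, zero_mul])
  rw [Matrix.vecMul, dotProduct, Matrix.vecMul, dotProduct, ← h1]
  refine Finset.sum_congr rfl fun s _ => ?_
  rw [dif_pos s.2]
  rfl

theorem exists_el (p : ℕ) [Fact p.Prime] (d : ℕ) :
    ∃ (I : Type) (_ : Fintype I) (_ : DecidableEq I), A.tp p d ≤ Fintype.card I ∧
      Nonempty (El A p d I) := by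
  classical
  obtain ⟨I, hI, hI', hcard, a, y, x, ψ, h1, h2⟩ := snf_data (mx A (d + 1)) p
  refine ⟨I, hI, hI', ?_, ?_⟩
  · have e1 : ∀ (F : Type) [Field F], (mx A (d + 1)).map (Int.cast : ℤ → F) =
        (A.mat F).submatrix (fun x : {x : A.ι × Q // A.deg x.1 = d + 1} => x.1) id := by
      intro F _
      ext s t
      rfl
    rw [e1, e1] at hcard
    exact hcard
  obtain ⟨Y, hY⟩ : ∃ Y : I → A.ι → MonoidAlgebra ℤ Q, ∀ i, co A (Y i) = y i :=
    ⟨fun i => (co A).symm (y i), fun i => (co A).apply_symm_apply _⟩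
  obtain ⟨X, hX⟩ : ∃ X : I → A.ι → MonoidAlgebra ℤ Q, ∀ i, co A (X i) =
      fun t : A.ι × Q => if h : A.deg t.1 = d + 1 then x i ⟨t, h⟩ else 0 :=
    ⟨fun i => (co A).symm _, fun i => (co A).apply_symm_apply _⟩
  have hXdeg : ∀ i j, A.deg j ≠ d + 1 → X i j = 0 := by
    intro i j hj
    apply MonoidAlgebra.coeff_injective
    ext q
    have h3 := congrFun (hX i) (j, q)
    rw [co_apply, dif_neg hj] at h3
    exact h3
  have hdx : ∀ i, X i ᵥ* A.D = a i • Y i := by
    intro i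
    apply (co A).injective
    rw [co_vecMul, hX, ← mx_mul, (h1 i).2.2.1, map_smul, hY]
  have hYdeg : ∀ i j, A.deg j ≠ d → Y i j = 0 := by
    intro i j hj
    have h3 : pr A d (X i ᵥ* A.D) = X i ᵥ* A.D := by
      rw [← pr_bd, pr_same A (hXdeg i)]
    have h4 := congrFun h3 j
    rw [pr_apply, if_neg hj, hdx] at h4
    apply MonoidAlgebra.coeff_injective
    ext q
    have h5 := congrArg (fun z : MonoidAlgebra ℤ Q => z.coeff q) h4
    have h6 : (0 : ℤ) = a i * (Y i j).coeff q := h5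
    have h7 := (mul_eq_zero.1 h6.symm).resolve_left (h1 i).1
    rw [h7]
    rfl
  have hdy : ∀ i, Y i ᵥ* A.D = 0 := by
    intro i
    have h3 := bd_bd A (X i)
    rw [hdx, Matrix.smul_vecMul] at h3
    apply (co A).injective
    have h4 := congrArg (co A) h3
    rw [map_smul, map_zero] at h4
    funext t
    have h5 := congrFun h4 t
    have h6 : a i * co A (Y i ᵥ* A.D) t = 0 := h5
    rw [(mul_eq_zero.1 h6).resolve_left (h1 i).1, map_zero]
    rfl
  -- the integral functionals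
  obtain ⟨Ψ, hΨ⟩ : ∃ Ψ : I → (A.ι → MonoidAlgebra ℤ Q) →+ ℤ, ∀ i v, Ψ i v = ψ i (co A v) :=
    ⟨fun i => ((ψ i).comp (co A).toLinearMap).toAddMonoidHom, fun i v => rfl⟩
  have hdiv : ∀ i v, a i ∣ Ψ i (pr A (d + 1) v ᵥ* A.D) := by
    intro i v
    have h3 : co A (pr A (d + 1) v) = fun t : A.ι × Q => if h : A.deg t.1 = d + 1 then
        (fun s : {x : A.ι × Q // A.deg x.1 = d + 1} => co A v s.1) ⟨t, h⟩ else 0 := by
      funext t
      rw [co_apply, pr_apply]
      by_cases h : A.deg t.1 = d + 1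
      · rw [if_pos h, dif_pos h]
        rfl
      · rw [if_neg h, dif_neg h]
        rfl
    rw [hΨ, co_vecMul, h3]
    have h4 := (h1 i).2.2.2 (fun s => co A v s.1)
    rw [mx_mul] at h4
    exact h4
  have hΨY : ∀ i j, Ψ i (Y j) = if i = j then 1 else 0 := by
    intro i j
    rw [hΨ, hY, h2]
  have hdiv2 : ∀ i v, ∃ c : ℤ, Ψ i (pr A (d + 1) v ᵥ* A.D) = a i * c := fun i v => hdiv i v
  choose c hc using hdiv2
  have hcadd : ∀ i v w, c i (v + w) = c i v + c i w := by
    intro i v w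
    apply mul_left_cancel₀ (h1 i).1
    rw [← hc, mul_add, ← hc, ← hc, map_add, Matrix.add_vecMul, map_add]
  refine ⟨{
    a := a
    x := X
    y := Y
    φ := fun i => (Int.castAddHom (ZMod p)).comp ((Ψ i).comp (pr A d))
    γ := fun i => (Int.castAddHom (ZMod p)).comp (AddMonoidHom.mk' (c i) (hcadd i))
    ane := fun i => (h1 i).1
    xdeg := hXdeg
    ydeg := hYdeg
    dx := hdx
    dy := hdy
    φc := ?_
    γc := ?_
    φy := ?_
    γx := ?_
    φx := ?_
    γy := ?_ }⟩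
  · intro i v
    show ((Ψ i (pr A d (v ᵥ* A.D)) : ℤ) : ZMod p) = 0
    rw [← pr_bd, ZMod.intCast_zmod_eq_zero_iff_dvd]
    exact (h1 i).2.1.trans (hdiv i v)
  · intro i v
    show ((c i (v ᵥ* A.D) : ℤ) : ZMod p) = 0
    have h3 := hc i (v ᵥ* A.D)
    rw [← pr_bd, bd_bd, map_zero] at h3
    rw [(mul_eq_zero.1 h3.symm).resolve_left (h1 i).1, Int.cast_zero]
  · intro i j
    show ((Ψ i (pr A d (Y j)) : ℤ) : ZMod p) = _
    rw [pr_same A (hYdeg j), hΨY]
    push_cast
    rfl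
  · intro i j
    show ((c i (X j) : ℤ) : ZMod p) = _
    have h3 := hc i (X j)
    rw [pr_same A (hXdeg j), hdx, map_zsmul, hΨY, smul_eq_mul] at h3
    by_cases hij : i = j
    · subst hij
      rw [if_pos rfl] at h3 ⊢
      rw [← mul_left_cancel₀ (h1 i).1 h3, Int.cast_one]
    · rw [if_neg hij, mul_zero] at h3
      rw [if_neg hij, (mul_eq_zero.1 h3.symm).resolve_left (h1 i).1, Int.cast_zero]
  · intro i j
    show ((Ψ i (pr A d (X j)) : ℤ) : ZMod p) = _
    rw [pr_ne A (by omega) (hXdeg j), map_zero, Int.cast_zero]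
  · intro i j
    show ((c i (Y j) : ℤ) : ZMod p) = _
    have h3 := hc i (Y j)
    rw [pr_ne A (by omega) (hYdeg j), Matrix.zero_vecMul, map_zero] at h3
    rw [(mul_eq_zero.1 h3.symm).resolve_left (h1 i).1, Int.cast_zero]

end el

theorem finite_prod {G H : Type} [Group G] [Group H] (N₁ : Subgroup G) (N₂ : Subgroup H)
    [N₁.Normal] [N₂.Normal] [Finite (G ⧸ N₁)] [Finite (H ⧸ N₂)] :
    Finite ((G × H) ⧸ N₁.prod N₂) := by
  refine Finite.of_surjective (fun t : (G ⧸ N₁) × (H ⧸ N₂) =>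
    (pd N₁ N₂).a t.1 * (pd N₁ N₂).b t.2) fun q => ?_
  exact ⟨((pd N₁ N₂).p₁ q, (pd N₁ N₂).p₂ q), (pd N₁ N₂).h3 q⟩

theorem p3S : P3S := by
  intro G _ C N _ _ p _ d
  obtain ⟨I, _, _, hI, ⟨X⟩⟩ := exists_el (C.quot N) p d
  have hfin : Finite ((G × G) ⧸ N.prod N) := finite_prod N N
  have hp : 1 ≤ p := (Fact.out : p.Prime).one_lt.le
  have h1 : ((C.quot N).tp p d) ^ 2 ≤ Fintype.card (I × I) := by
    rw [Fintype.card_prod, ← pow_two]
    exact Nat.pow_le_pow_left hI 2
  refine ⟨(Nat.pow_le_pow_right hp h1).trans ?_, (Nat.pow_le_pow_right hp h1).trans ?_⟩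
  · exact (X.det.pr X.det (two_mul d).symm).le
  · obtain ⟨Y⟩ := X.tor X (k := 2 * d + 1) (by omega)
    exact Y.le

theorem p3T : P3T := by
  intro G _ C N _ _ p _ d
  obtain ⟨I, _, _, hI, ⟨X⟩⟩ := exists_el (C.quot N) p d
  have hfin : Finite ((G × G) ⧸ N.prod N) := finite_prod N N
  have hfin2 : Finite ((G × G × G) ⧸ N.prod (N.prod N)) := finite_prod N (N.prod N)
  have hp : 1 ≤ p := (Fact.out : p.Prime).one_lt.le
  have h1 : ((C.quot N).tp p d) ^ 3 ≤ Fintype.card (I × I × I) := by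
    rw [Fintype.card_prod, Fintype.card_prod]
    calc ((C.quot N).tp p d) ^ 3 ≤ (Fintype.card I) ^ 3 := Nat.pow_le_pow_left hI 3
      _ = _ := by ring
  refine (Nat.pow_le_pow_right hp h1).trans ?_
  obtain ⟨Y⟩ := X.tor X (k := 2 * d + 1) (by omega)
  exact (X.det.pr Y (k := 3 * d + 1) (by omega)).le

end Pool.Agent.N426.LT
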